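import Pool.Agent.H69.DC.Cor

/-!
# Symplectic involutions and the line `3σ = χ`

See `Pool.Agent.H69.DC.Cover` for the data: the quotient of a closed simply connected symplectic
4-manifold `M` by a symplectic involution, after blowing up the isolated fixed points, is a double
cover of a blow up of a symplectic 4-manifold `Y₀`; the branch curve of class `2L₀` in `Y₀` may have
arbitrary singularities, resolved canonically.
-/

namespace Pool.Agent.Results.MP_dbd540_gt.DoubleCovers

open Pool.Agent.H69.DC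

/-- Let `3σ(M) ≥ χ(M)`. Let `ε₁` be the number of the isolated fixed points whose node in `Y` is not
contracted in `Y₀`. Then `3 L₀² + 23 K₀L₀ + 66 (b⁺(Y₀) + ε₁) ≥ 76 b⁻(Y₀) + 10`. This is sharper if the
singularities are mild, or if no node is contracted. In particular, if `M` is a double plane of
branch degree `2d > 0` and `ε₁ = 0` then `d ≥ 23`, the singularities are not mild, and `d ≥ 40` if
there are no isolated fixed points. The numbers of a curve of degree `46` with `23` points of type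
`(7 → 7)` show that `23` is sharp for this method. -/
theorem result :
    (∀ D : Cover, D.χ ≤ 3 * D.σ →
      76 * (D.bm₀ : ℤ) + 10 ≤ 3 * D.LL + 23 * D.KL + 66 * (D.bp₀ + D.ε₁) ∧
      (D.Mild → 54 * (D.bm₀ : ℤ) + 8 + D.LL ≤ 15 * D.KL + 46 * (D.bp₀ + D.ε₁)) ∧
      (D.ε₁ = D.ε → 322 * (D.bm₀ : ℤ) + 44 ≤ 7 * D.LL + 95 * D.KL + 278 * (D.bp₀ + D.ε₁)) ∧
      (D.ε₁ = 0 → ∀ d, D.Plane d → 1 ≤ d → 23 ≤ d ∧ ¬ D.Mild ∧ (D.ε = 0 → 40 ≤ d))) ∧
    ∃ D : Cover, D.Plane 23 ∧ D.ε₁ = 0 ∧ D.χ = 3 * D.σ :=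
  ⟨fun D h => ⟨D.partA h, fun hm => by linarith [D.partB hm.1 hm.2 h], fun h0 => D.partC h0 h,
    fun h0 _ hD h1 => D.plane h hD h0 h1⟩, ex46, ex46_plane.1, ex46_plane.2.1, ex46_plane.2.2⟩

end Pool.Agent.Results.MP_dbd540_gt.DoubleCovers
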