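import Pool.Agent.H18.PG.Group
import Pool.Agent.H18.PG.Exist

/-!
# The finite symmetry groups of a symplectic fake projective plane

Let `M` be a closed simply connected symplectic four-manifold with `b₂ = 1` (so `3σ = 3 = χ`) which
is not `ℂP²`. `SymmetryGroup G M` (in `Pool.Agent.H18.PG.Rep`) collects what is used of a finite
group `G` which acts faithfully on `M` by symplectomorphisms: every `g ≠ 1` has three fixed points,
all isolated, and the numerical data `PlaneAction n`, `n = ord g`, of `Pool.Agent.H18.PG.LowDefs` and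
`Pool.Agent.H93.PF.Defs`, where the sources of the fields are explained.

(1) The list of the groups and of the stabilizers of the points.
(2) For elements of order eleven the two weights at a fixed point are not opposite.
(3), (4) Every group of the list satisfies the conditions, so the list is exact for them.
-/

namespace Pool.Agent.Results.MP_dbd540_gt.FakePlaneGroups

open MulAction Pool.Agent.H93.PF Pool.Agent.H18.PG

theorem result :
    (∀ (G M : Type) [Group G] [Finite G] [MulAction G M], SymmetryGroup G M →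
      (IsCyclic G ∧ Nat.card G ∈ ({1, 3, 5, 7, 11} : Set ℕ) ∧
        (Nat.card G ≠ 1 → ∃ F : Finset M, F.card = 3 ∧ (∀ x ∈ F, stabilizer G x = ⊤) ∧
          ∀ x, x ∉ F → stabilizer G x = ⊥)) ∨
      ∃ (C : Subgroup G) (F : Finset M),
        C.Normal ∧ IsCyclic C ∧ C.index = 3 ∧ Nat.card C ∈ ({3, 7} : Set ℕ) ∧
        F.card = 3 ∧ (∀ x ∈ F, stabilizer G x = C ∧ orbit G x = F) ∧
        (∀ x, x ∉ F → Nat.card (stabilizer G x) = 1 ∨ Nat.card (stabilizer G x) = 3) ∧
        ∀ g, g ∉ C → g ^ 3 = 1 ∧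
          ∃ r : ℕ, (∀ c ∈ C, g * c * g⁻¹ = c ^ r) ∧ Nat.card C ∣ r ^ 2 + r + 1) ∧
    (∀ (A : PlaneAction 11) (i : Fin 3), (A.w (i + 1) - A.w i) + (A.w (i + 2) - A.w i) ≠ 0) ∧
    (∀ n : ℕ, n = 1 ∨ n = 3 ∨ n = 5 ∨ n = 7 ∨ n = 11 →
      ∃ (G M : Type) (_ : Group G) (_ : Finite G) (_ : MulAction G M),
        Nat.card G = n ∧ IsCyclic G ∧ Nonempty (SymmetryGroup G M)) ∧
    (∀ n : ℕ, n = 9 ∨ n = 21 →
      ∃ (G M : Type) (_ : Group G) (_ : Finite G) (_ : MulAction G M),
        Nat.card G = n ∧ ¬ IsCyclic G ∧ Nonempty (SymmetryGroup G M)) := by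
  refine ⟨?_, fun A => eleven A.toFakePlaneAction, fun n => exists_cyclic, fun n =>
    exists_noncyclic⟩
  intro G M _ _ _ D
  rcases list D with h | ⟨C, F, h, hc⟩
  · exact Or.inl h
  · exact Or.inr ⟨C, F, h.normal, h.cyclic, h.index, hc, h.card, h.stab, h.free, h.conj⟩

end Pool.Agent.Results.MP_dbd540_gt.FakePlaneGroups
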