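import Pool.Agent.H53.HB.Coord
import Pool.Agent.H53.HB.Exa

/-!
# Hyperelliptic Lefschetz fibrations satisfy the strict Bogomolov-Miyaoka-Yau inequality

The definitions are in `Pool/Agent/H53/HB/Stmt.lean` and `Pool/Agent/H53/HB/Defs.lean`.
A factorization `F` gives a hyperelliptic Lefschetz fibration of genus `g` over the sphere; `M` is
its total space with `b` exceptional spheres blown down, so `χ(M) = χ - b` and `σ(M) = σ + b`.
If `3 σ(M) ≥ χ(M)` then the genus is at least `minGenus k b`, `b⁺ ≥ 5`, and there are at least five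
reducible fibres.
-/

namespace Pool.Agent.Results.MP_dbd540_gt.HyperellipticFibrations

open Pool.Agent.H53.HB

theorem result (k : Kind) (g m : ℕ) (hg : 2 ≤ g) (F : List (Braid m × ℕ))
    (hF : ∀ p ∈ F, p.2 < g) (hx : Closes k g m (fprod m F)) (hfull : Full m F)
    (b : ℤ) (hb : b ≤ maxBlow k) :
    3 * (sigma m F + b) < chi m F - b ∨
      (minGenus k b ≤ g ∧ 5 ≤ bPlus m F ∧ 5 ≤ red F) :=
  main k g m hg F hF hx hfull b hb

end Pool.Agent.Results.MP_dbd540_gt.HyperellipticFibrations
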