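import Mathlib
import Pool.Agent.H18.SY.Cyclic

/-!
# Symplectic symmetries of a simply connected symplectic four-manifold with `3σ = χ`

`D : SymplecticAction G M` is a faithful action of a finite group `G` by symplectomorphisms on a closed
simply connected symplectic four-manifold `M` with `3σ = χ`, so `b⁺ = 2σ - 1` and `b⁻ = σ - 1`;
`M` need not be minimal. Its fields hold for every such action, with the following sources:
an invariant almost complex structure (the fixed set of `g ≠ 1` consists of isolated points and
symplectic surfaces, and the differential is complex), the Lefschetz fixed point formula, the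
`G`-signature theorem of Atiyah and Singer, and Edmonds' theorem that the mod `p` Betti number
`b_1` of a nonempty fixed set of an element of prime order `p` is the number of cyclotomic
summands of `H_2(M;ℤ)`. `D.NotPlane` holds if `M` is not `ℂP²`: then `M` is not rational or ruled,
and by Taubes and Liu a symplectic surface `S` with `S² ≥ 0` has `K·S ≥ 0`; by the adjunction
formula `K·S = 2 γ - 2 - S²`.

(1), (2): inequalities for the elements of order two and three.
(3): their sharper forms for minimal `M`.
(4): if `G` acts trivially on `H⁺`, then `G` has odd order, elements of order three act trivially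
on `H₂(M)` and have exactly `χ = 3σ` fixed points, all isolated with `det(dg) = 1`, three-subgroups
which fix a point are cyclic, and three-subgroups of exponent `3^e` have order dividing
`3^(e+1) σ`.
(5): if `σ = 1` (a homotopy `ℂP²`) every action is trivial on `H⁺`.
-/

namespace Pool.Agent.Results.MP_dbd540_gt.Symmetries

open Pool.Agent.H18.SY

theorem result (G M : Type) [Group G] [Finite G] [MulAction G M] (D : SymplecticAction G M)
    (hD : D.NotPlane) :
    (∀ g : G, orderOf g = 2 →
      D.σ + moved (D.Hm g) + D.spheres g + 2 * D.higher g ≤ 3 * moved (D.Hp g)) ∧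
    (∀ g : G, orderOf g = 3 →
      4 * D.special g + 7 * moved (D.Hm g) + 12 * D.spheres g + 20 * D.higher g
        ≤ 11 * moved (D.Hp g)) ∧
    (D.Minimal →
      (∀ g : G, orderOf g = 2 →
        D.σ + moved (D.Hm g) + 2 * D.spheres g + 2 * D.higher g ≤ 3 * moved (D.Hp g)) ∧
      (∀ g : G, orderOf g = 3 →
        4 * D.special g + 7 * moved (D.Hm g) + 20 * D.spheres g + 20 * D.higher g
          ≤ 11 * moved (D.Hp g))) ∧
    ((∀ g, D.Hp g = 1) →
      Odd (Nat.card G) ∧
      (∀ g : G, orderOf g = 3 → D.Hm g = 1 ∧ D.surfaces g = [] ∧ (D.iso g).card = 3 * D.σ ∧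
        ∀ x, g • x = x → x ∈ D.iso g ∧ (D.lin g x).det = 1) ∧
      ∀ P : Subgroup G, IsPGroup 3 P →
        (∀ x : M, (∀ g ∈ P, g • x = x) → IsCyclic P) ∧
        ∀ e : ℕ, (∀ g ∈ P, g ^ 3 ^ e = 1) → Nat.card P ∣ 3 ^ (e + 1) * D.σ) ∧
    (D.σ = 1 → ∀ g, D.Hp g = 1) := by
  refine ⟨?_, ?_, ?_, ?_, ?_⟩
  · intro g hg
    have h := D.order_two_real hD hg 1 (D.sphere_bound hD (SymplecticAction.ne_one_of_order hg (by norm_num)))
    have h1 : ((D.σ + moved (D.Hm g) + D.spheres g + 2 * D.higher g : ℕ) : ℝ)
        ≤ ((3 * moved (D.Hp g) : ℕ) : ℝ) := by push_cast; linarith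
    exact_mod_cast h1
  · intro g hg
    have h := D.order_three_real hD hg 1 (D.sphere_bound hD (SymplecticAction.ne_one_of_order hg (by norm_num)))
    have h1 : ((4 * D.special g + 7 * moved (D.Hm g) + 12 * D.spheres g + 20 * D.higher g : ℕ) : ℝ)
        ≤ ((11 * moved (D.Hp g) : ℕ) : ℝ) := by push_cast; linarith
    exact_mod_cast h1
  · intro hM
    refine ⟨?_, ?_⟩
    · intro g hg
      have h := D.order_two_real hD hg 2
        (D.sphere_bound_min hD hM (SymplecticAction.ne_one_of_order hg (by norm_num)))
      have h1 : ((D.σ + moved (D.Hm g) + 2 * D.spheres g + 2 * D.higher g : ℕ) : ℝ)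
          ≤ ((3 * moved (D.Hp g) : ℕ) : ℝ) := by push_cast; linarith
      exact_mod_cast h1
    · intro g hg
      have h := D.order_three_real hD hg 2
        (D.sphere_bound_min hD hM (SymplecticAction.ne_one_of_order hg (by norm_num)))
      have h1 : ((4 * D.special g + 7 * moved (D.Hm g) + 20 * D.spheres g + 20 * D.higher g : ℕ) : ℝ)
          ≤ ((11 * moved (D.Hp g) : ℕ) : ℝ) := by push_cast; linarith
      exact_mod_cast h1
  · intro hp
    refine ⟨D.odd_card hD hp, fun g hg => D.order_three_trivial hD (hp g) hg, fun P hP => ?_⟩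
    exact ⟨fun x hx => D.cyclic_of_fixed hD hp P hP x hx, fun e he => D.card_dvd hD hp P hP e he⟩
  · intro hσ g
    exact D.Hp_of_one hσ g

end Pool.Agent.Results.MP_dbd540_gt.Symmetries
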